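import Pool.Agent.R595.NST.P3
import Pool.Agent.R595.NST.N2b
import Pool.Agent.R595.NST.N3
import Pool.Agent.R595.NST.NegFinal

/-!
# MP_2e4b78_lc: normal ideals on `ω₁` as tree nonstationary ideals: both answers are consistent

The definitions (`Tree`, `ht`, `HeightOmega1`, `Special`, `NSup`, `NSub`, `IsNormalIdeal`,
`IsClubIn`, `StatIn`, `NonReflecting`, `RadoConjecture`, `Diamond`) are in
`Pool/Agent/R595/NST/Defs.lean`.
-/

set_option autoImplicit false

namespace Pool.Agent.Results.MP_2e4b78_lc.Independent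

open Pool.Agent.R595.NST Cardinal Ordinal

/-- (1) If `2^ℵ₁ = ℵ₂` and there is a non-reflecting stationary set of ordinals below `ω₂` of
countable cofinality, then every normal ideal on `ω₁` is `NS_T` for some tree `T` of height `ω₁`.
(2) Under Rado's conjecture and diamond, there is a normal ideal on `ω₁` which is not `NS_T` for
any tree `T` of height `ω₁`. -/
theorem result :
    ((2 : Cardinal.{0}) ^ ℵ₁ = ℵ_ 2 → (∃ E, NonReflecting E) →
      ∀ I, IsNormalIdeal I → ∃ (T : Type) (_ : Pool.Agent.R595.NST.Tree T), HeightOmega1 T ∧ NSub T = I) ∧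
    (RadoConjecture → Diamond →
      ∃ I, IsNormalIdeal I ∧ ∀ (T : Type) [Pool.Agent.R595.NST.Tree T], HeightOmega1 T → NSub T ≠ I) :=
  ⟨taskP_of taskP1 taskP3, taskN_of taskN1 taskN2 taskN3⟩

end Pool.Agent.Results.MP_2e4b78_lc.Independent
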